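import Pool.Agent.Helper47_PPZ.Phi

/-!
# Squad PPZ, module NOF: there are no families of bad curves
-/

set_option autoImplicit false

universe u

namespace Pool.Agent.PPZ.H47

open MvPolynomial PGH PPX Pool.Agent.PPZ

section Deg

variable {k : Type u} [Field k]

theorem deg_mul {p q : P4 k} (hp : degreeOf 3 p = 0) (hq : degreeOf 3 q = 0) :
    degreeOf 3 (p * q) = 0 := by
  have h := degreeOf_mul_le 3 p q
  omega

theorem deg_pow {p : P4 k} (hp : degreeOf 3 p = 0) (n : ℕ) : degreeOf 3 (p ^ n) = 0 := by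
  induction n with
  | zero => rw [pow_zero]; exact degreeOf_one 3
  | succ n ih => rw [pow_succ]; exact deg_mul ih hp

theorem deg_prod {ι : Type*} (s : Finset ι) (f : ι → P4 k) (h : ∀ i ∈ s, degreeOf 3 (f i) = 0) :
    degreeOf 3 (∏ i ∈ s, f i) = 0 := by
  classical
  induction s using Finset.induction_on with
  | empty => rw [Finset.prod_empty]; exact degreeOf_one 3
  | insert a s ha ih =>
    rw [Finset.prod_insert ha]
    exact deg_mul (h a (Finset.mem_insert_self a s)) (ih fun i hi => h i (Finset.mem_insert_of_mem hi))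

theorem deg_X_sub {v : Fin 4} (hv : v ≠ 3) (c : k) : degreeOf 3 (X v - C c : P4 k) = 0 := by
  have h1 : degreeOf 3 (X v : P4 k) = 0 := by
    rw [degreeOf_X, if_neg hv.symm]
  have h2 : degreeOf 3 (C c : P4 k) = 0 := degreeOf_C c 3
  have h3 := degreeOf_sub_le 3 (X v : P4 k) (C c)
  rw [h1, h2] at h3
  exact Nat.le_zero.1 (h3.trans (le_of_eq (max_self 0)))

end Deg

section Ev

variable {k : Type u} [Field k] {N₁ N₂ : ℕ} {a : Fin N₁ → k} {b : Fin N₂ → k}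

theorem ev_mul (C : BC a b) (p q : P4 k) : C.ev (p * q) = C.ev p * C.ev q := by
  unfold BC.ev; exact map_mul _ _ _

theorem ev_pow (C : BC a b) (p : P4 k) (n : ℕ) : C.ev (p ^ n) = C.ev p ^ n := by
  unfold BC.ev; exact map_pow _ _ _

theorem ev_prod {ι : Type*} (C : BC a b) (s : Finset ι) (f : ι → P4 k) :
    C.ev (∏ i ∈ s, f i) = ∏ i ∈ s, C.ev (f i) := by
  unfold BC.ev; exact map_prod _ _ _

theorem ev_X0 (D : BC a b) (c : k) : D.ev (X 0 - C c) = D.x - algebraMap k D.E c := by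
  unfold BC.ev
  rw [map_sub, aeval_X, aeval_C]
  rfl

theorem ev_X1 (D : BC a b) (c : k) : D.ev (X 1 - C c) = D.z - algebraMap k D.E c := by
  unfold BC.ev
  rw [map_sub, aeval_X, aeval_C]
  rfl

theorem ev_X2 (D : BC a b) : D.ev (X 2) = D.th := by
  unfold BC.ev
  rw [aeval_X]
  rfl

theorem ev_fx (D : BC a b) : D.ev (fx a) = D.f := by
  unfold fx BC.f
  rw [ev_prod]
  exact Finset.prod_congr rfl fun i _ => ev_X0 D (a i)

theorem ev_gz (D : BC a b) : D.ev (gz b) = D.g := by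
  unfold gz BC.g
  rw [ev_prod]
  exact Finset.prod_congr rfl fun j _ => ev_X1 D (b j)

/-- numerator -/
noncomputable def pn (b : Fin N₂ → k) (s₁ s₂ : Finset k) (d : ℕ) (m₁ m₂ : k → ℤ) : P4 k :=
  X 2 ^ d * gz b ^ (2 * d) * (∏ c ∈ s₁, (X 0 - C c) ^ (m₁ c).toNat) *
    ∏ c ∈ s₂, (X 1 - C c) ^ (- m₂ c).toNat

/-- denominator -/
noncomputable def qn (a : Fin N₁ → k) (s₁ s₂ : Finset k) (d : ℕ) (m₁ m₂ : k → ℤ) : P4 k :=
  fx a ^ (2 * d) * (∏ c ∈ s₁, (X 0 - C c) ^ (- m₁ c).toNat) *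
    ∏ c ∈ s₂, (X 1 - C c) ^ (m₂ c).toNat

theorem deg_pn (b : Fin N₂ → k) (s₁ s₂ : Finset k) (d : ℕ) (m₁ m₂ : k → ℤ) :
    degreeOf 3 (pn b s₁ s₂ d m₁ m₂) = 0 := by
  unfold pn gz
  refine deg_mul (deg_mul (deg_mul (deg_pow ?_ _) (deg_pow (deg_prod _ _ fun j _ => ?_) _))
    (deg_prod _ _ fun c _ => deg_pow ?_ _)) (deg_prod _ _ fun c _ => deg_pow ?_ _)
  · rw [degreeOf_X, if_neg (by decide)]
  · exact deg_X_sub (by decide) _
  · exact deg_X_sub (by decide) _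
  · exact deg_X_sub (by decide) _

theorem deg_qn (a : Fin N₁ → k) (s₁ s₂ : Finset k) (d : ℕ) (m₁ m₂ : k → ℤ) :
    degreeOf 3 (qn a s₁ s₂ d m₁ m₂) = 0 := by
  unfold qn fx
  refine deg_mul (deg_mul (deg_pow (deg_prod _ _ fun j _ => ?_) _)
    (deg_prod _ _ fun c _ => deg_pow ?_ _)) (deg_prod _ _ fun c _ => deg_pow ?_ _)
  · exact deg_X_sub (by decide) _
  · exact deg_X_sub (by decide) _
  · exact deg_X_sub (by decide) _

theorem zpow_split {E : Type*} [Field E] {y : E} (hy : y ≠ 0) (m : ℤ) :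
    y ^ m.toNat = y ^ m * y ^ (-m).toNat := by
  rw [← zpow_natCast y m.toNat, ← zpow_natCast y (-m).toNat, ← zpow_add₀ hy]
  congr 1
  omega

theorem ev_pn (D : BC a b) (hx : ∀ c : k, D.x - algebraMap k D.E c ≠ 0)
    (hz : ∀ c : k, D.z - algebraMap k D.E c ≠ 0) (s₁ s₂ : Finset k) (d : ℕ) (m₁ m₂ : k → ℤ) :
    D.ev (qn a s₁ s₂ d m₁ m₂) ≠ 0 ∧
      D.ev (pn b s₁ s₂ d m₁ m₂) = Phi D s₁ s₂ d m₁ m₂ * D.ev (qn a s₁ s₂ d m₁ m₂) := by
  have hf : D.f ≠ 0 := Finset.prod_ne_zero_iff.2 fun i _ => hx (a i)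
  have hq : D.ev (qn a s₁ s₂ d m₁ m₂) = D.f ^ (2 * d) *
      (∏ c ∈ s₁, (D.x - algebraMap k D.E c) ^ (- m₁ c).toNat) *
        ∏ c ∈ s₂, (D.z - algebraMap k D.E c) ^ (m₂ c).toNat := by
    unfold qn
    rw [ev_mul, ev_mul, ev_pow, ev_fx, ev_prod, ev_prod]
    simp only [ev_pow, ev_X0, ev_X1]
  have hp : D.ev (pn b s₁ s₂ d m₁ m₂) = D.th ^ d * D.g ^ (2 * d) *
      (∏ c ∈ s₁, (D.x - algebraMap k D.E c) ^ (m₁ c).toNat) *
        ∏ c ∈ s₂, (D.z - algebraMap k D.E c) ^ (- m₂ c).toNat := by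
    unfold pn
    rw [ev_mul, ev_mul, ev_mul, ev_pow, ev_pow, ev_gz, ev_X2, ev_prod, ev_prod]
    simp only [ev_pow, ev_X0, ev_X1]
  constructor
  · rw [hq]
    refine mul_ne_zero (mul_ne_zero (pow_ne_zero _ hf) ?_) ?_
    · exact Finset.prod_ne_zero_iff.2 fun c _ => pow_ne_zero _ (hx c)
    · exact Finset.prod_ne_zero_iff.2 fun c _ => pow_ne_zero _ (hz c)
  · rw [hq, hp]
    unfold Phi BC.ph
    have e1 : ∏ c ∈ s₁, (D.x - algebraMap k D.E c) ^ (m₁ c).toNat =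
        (∏ c ∈ s₁, (D.x - algebraMap k D.E c) ^ m₁ c) *
          ∏ c ∈ s₁, (D.x - algebraMap k D.E c) ^ (- m₁ c).toNat := by
      rw [← Finset.prod_mul_distrib]
      exact Finset.prod_congr rfl fun c _ => zpow_split (hx c) _
    have e2 : ∏ c ∈ s₂, (D.z - algebraMap k D.E c) ^ (- m₂ c).toNat =
        (∏ c ∈ s₂, (D.z - algebraMap k D.E c) ^ (- m₂ c)) *
          ∏ c ∈ s₂, (D.z - algebraMap k D.E c) ^ (m₂ c).toNat := by
      rw [← Finset.prod_mul_distrib]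
      refine Finset.prod_congr rfl fun c _ => ?_
      have h := zpow_split (hz c) (- m₂ c)
      rwa [neg_neg] at h
    have e3 : (D.th * D.g ^ 2 / D.f ^ 2) ^ d * D.f ^ (2 * d) = D.th ^ d * D.g ^ (2 * d) := by
      rw [div_pow, mul_pow, ← pow_mul, ← pow_mul, div_mul_cancel₀ _ (pow_ne_zero _ hf)]
    rw [e1, e2, ← e3]
    ring

end Ev

theorem nof (hnod : NodStmt.{u}) (hrta : RtaStmt.{u}) (hrtb : RtbStmt.{u}) (hphi : PhiStmt.{u})
    (hrel : RelStmt.{u}) (halt : AltStmt.{u}) (hcon : ConStmt.{u}) (hpen : PenStmt.{u}) :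
    NofStmt.{u} := by
  obtain ⟨Na, hA⟩ := hrta 16 (by norm_num)
  obtain ⟨Nb, hB⟩ := hrtb 16 (by norm_num)
  obtain ⟨Nr, hR⟩ := hrel
  obtain ⟨Nc, hC⟩ := hcon
  refine ⟨max 32 (max (max Na Nb) (max Nr Nc)), by
    exact le_trans (by norm_num) (le_max_left _ _), ?_⟩
  intro k _ _ _ N₁ N₂ a b hN₁ hN₂ ha hb T
  have h32₁ : 32 ≤ N₁ := le_trans (le_max_left _ _) hN₁
  have h32₂ : 32 ≤ N₂ := le_trans (le_max_left _ _) hN₂
  have hM₁ := le_trans (le_max_right _ _) hN₁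
  have hM₂ := le_trans (le_max_right _ _) hN₂
  have hab₁ := le_trans (le_max_left _ _) hM₁
  have hab₂ := le_trans (le_max_left _ _) hM₂
  have hrc₁ := le_trans (le_max_right _ _) hM₁
  have hrc₂ := le_trans (le_max_right _ _) hM₂
  obtain ⟨s₁, s₂, r₁, r₂, hord⟩ := hA a b ((le_max_left _ _).trans hab₁)
    ((le_max_left _ _).trans hab₂) ha hb T
  obtain ⟨hr₁, hr₂⟩ := hB a b ((le_max_right _ _).trans hab₁) ((le_max_right _ _).trans hab₂) ha hb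
    T s₁ s₂ r₁ r₂ hord
  -- the rational residues
  have hex₁ : ∀ c : k, ∃ ρ : ℚ, c ∈ s₁ → r₁ c = ρ := by
    intro c
    by_cases hc : c ∈ s₁
    · obtain ⟨ρ, hρ⟩ := hr₁ c hc
      exact ⟨ρ, fun _ => hρ⟩
    · exact ⟨0, fun h => absurd h hc⟩
  have hex₂ : ∀ c : k, ∃ ρ : ℚ, c ∈ s₂ → r₂ c = ρ := by
    intro c
    by_cases hc : c ∈ s₂
    · obtain ⟨ρ, hρ⟩ := hr₂ c hc
      exact ⟨ρ, fun _ => hρ⟩
    · exact ⟨0, fun h => absurd h hc⟩
  choose ρ₁ hρ₁ using hex₁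
  choose ρ₂ hρ₂ using hex₂
  have hOrd : ∀ᶠ i in (T.U : Filter T.ι), Small 16 (T.C i) s₁ s₂ ∧
      Orders (T.C i) s₁ s₂ ρ₁ ρ₂ := by
    filter_upwards [hord] with i hi
    refine ⟨hi.1, fun P => ?_⟩
    have h1 := hi.2 P
    have h2 : (((P.ord (T.C i).ph : ℤ) : ℚ) : k) =
        ((∑ c ∈ s₂, ρ₂ c * P.ord ((T.C i).z - algebraMap k (T.C i).E c) -
          ∑ c ∈ s₁, ρ₁ c * P.ord ((T.C i).x - algebraMap k (T.C i).E c) : ℚ) : k) := by
      push_cast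
      rw [h1]
      congr 1
      · exact Finset.sum_congr rfl fun c hc => by rw [hρ₂ c hc]
      · exact Finset.sum_congr rfl fun c hc => by rw [hρ₁ c hc]
    exact Rat.cast_injective h2
  obtain ⟨d, m₁, m₂, hd, hm₁, hm₂, hPhi⟩ := hphi a b ha hb s₁ s₂ ρ₁ ρ₂
  obtain ⟨q, hq0, hq⟩ := hR a b ((le_max_left _ _).trans hrc₁) ((le_max_left _ _).trans hrc₂) ha hb
    s₁ s₂ ρ₁ ρ₂
  obtain ⟨G, hG0, hG32, hG⟩ := halt a b ha hb s₁ s₂ ρ₁ ρ₂ q hq0
  have hall : ∀ᶠ i in (T.U : Filter T.ι), Small 16 (T.C i) s₁ s₂ ∧ RootTh (T.C i) G ∧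
      ∃ c : k, c ≠ 0 ∧ Phi (T.C i) s₁ s₂ d m₁ m₂ = algebraMap k (T.C i).E c := by
    filter_upwards [hOrd] with i hi
    exact ⟨hi.1, hG _ (hq _ hi.2 hi.1), hPhi _ hi.2⟩
  have hxz : ∀ i, (∀ c : k, (T.C i).x - algebraMap k (T.C i).E c ≠ 0) ∧
      ∀ c : k, (T.C i).z - algebraMap k (T.C i).E c ≠ 0 := by
    intro i
    obtain ⟨-, -, -, -, -, -, -, -, -, hcn, -⟩ := hnod a b ha hb (T.C i)
    exact ⟨fun c h => (hcn c).1 (sub_eq_zero.1 h).symm, fun c h => (hcn c).2 (sub_eq_zero.1 h).symm⟩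
  by_cases hcase : ∃ c : k, ∀ᶠ i in (T.U : Filter T.ι),
      Phi (T.C i) s₁ s₂ d m₁ m₂ = algebraMap k (T.C i).E c
  · obtain ⟨c, hc⟩ := hcase
    have hc0 : c ≠ 0 := by
      obtain ⟨i, h1, h2⟩ := (hc.and hall).exists
      obtain ⟨-, -, c', hc', h3⟩ := h2
      rw [h1] at h3
      rw [(algebraMap k (T.C i).E).injective h3]
      exact hc'
    refine hC a b ((le_max_right _ _).trans hrc₁) ((le_max_right _ _).trans hrc₂) ha hb s₁ s₂ ρ₁ ρ₂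
      d m₁ m₂ hd hm₁ hm₂ G hG0 hG32 T c hc0 ?_
    filter_upwards [hc, hall] with i h1 h2
    exact ⟨h2.1, h2.2.1, h1⟩
  · refine hpen a b h32₁ h32₂ ha hb G hG0 (pn b s₁ s₂ d m₁ m₂) (qn a s₁ s₂ d m₁ m₂)
      (deg_pn b s₁ s₂ d m₁ m₂) (deg_qn a s₁ s₂ d m₁ m₂) T ?_ ?_
    · filter_upwards [hall] with i hi
      obtain ⟨h1, h2⟩ := ev_pn (T.C i) (hxz i).1 (hxz i).2 s₁ s₂ d m₁ m₂
      obtain ⟨-, h3, c, -, h4⟩ := hi
      exact ⟨h3, h1, c, by rw [h2, h4]⟩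
    · intro c
      by_contra hcon
      apply hcase
      refine ⟨c, ?_⟩
      rw [← Ultrafilter.eventually_not] at hcon
      filter_upwards [hcon] with i hi
      obtain ⟨h1, h2⟩ := ev_pn (T.C i) (hxz i).1 (hxz i).2 s₁ s₂ d m₁ m₂
      rw [ne_eq, not_not, h2] at hi
      exact mul_right_cancel₀ h1 hi

end Pool.Agent.PPZ.H47
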