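import Pool.Agent.Helper3_PPZ.Stmts

/-!
# Squad PPZ, module CTA: the height of the value of a polynomial
-/

set_option autoImplicit false

universe u

namespace Pool.Agent.PPZ.H47

open MvPolynomial PGH PPX Pool.Agent.PPZ

theorem aux_le (m d : ℕ) (o : ℤ) (h : m ≤ d) : -((d : ℤ) * max 0 (-o)) ≤ m * o := by
  have h1 : (m : ℤ) ≤ d := by exact_mod_cast h
  have h0 : (0 : ℤ) ≤ m := Int.natCast_nonneg m
  rcases le_total 0 o with ho | ho
  · rw [max_eq_left (by omega), mul_zero, neg_zero]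
    exact mul_nonneg h0 ho
  · rw [max_eq_right (by omega)]
    nlinarith

variable {k E : Type u} [Field k] [Field E] [Algebra k E]

theorem ge_aeval (e : Fin 4 → E) (d₁ d₂ M : ℕ) (Q : P4 k) (hQ : Q ∈ Qd k d₁ d₂ M)
    (P : Place k E) :
    P.Ge (-(d₁ * max 0 (-P.ord (e 0)) + d₂ * max 0 (-P.ord (e 1)) +
      M * (max 0 (-P.ord (e 2)) + max 0 (-P.ord (e 3))))) (aeval e Q) := by
  have hs : ∀ m ∈ Q.support, m 0 ≤ d₁ ∧ m 1 ≤ d₂ ∧ m 2 ≤ M ∧ m 3 ≤ M := by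
    intro m hm
    unfold Qd box at hQ
    rw [mem_restrictSupport_iff] at hQ
    have h1 := hQ hm
    exact ⟨h1 0, h1 1, h1 2, h1 3⟩
  rw [aeval_def, eval₂_eq']
  refine Place.Ge.sum fun m hm => ?_
  obtain ⟨h0, h1, h2, h3⟩ := hs m hm
  rw [Fin.prod_univ_four]
  have hg : P.Ge (0 + ((m 0) * P.ord (e 0) + (m 1) * P.ord (e 1) + (m 2) * P.ord (e 2) +
      (m 3) * P.ord (e 3))) (algebraMap k E (coeff m Q) *
      (e 0 ^ m 0 * e 1 ^ m 1 * e 2 ^ m 2 * e 3 ^ m 3)) :=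
    (P.ge_const _).mul ((((P.ge_ord.pow _).mul (P.ge_ord.pow _)).mul (P.ge_ord.pow _)).mul
      (P.ge_ord.pow _))
  refine hg.mono ?_
  have a0 := aux_le (m 0) d₁ (P.ord (e 0)) h0
  have a1 := aux_le (m 1) d₂ (P.ord (e 1)) h1
  have a2 := aux_le (m 2) M (P.ord (e 2)) h2
  have a3 := aux_le (m 3) M (P.ord (e 3)) h3
  linarith

theorem cta : CtaStmt.{u} := by
  intro k E _ _ _ _ _ _ e d₁ d₂ M Q hQ
  refine ⟨ge_aeval e d₁ d₂ M Q hQ, ?_⟩
  have hz : ht k (aeval e Q) ≤ ∑ i ∈ (Finset.univ : Finset (Fin 4)),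
      ht k (e i ^ (![d₁, d₂, M, M] : Fin 4 → ℕ) i) := by
    refine ht_le_of_pole_le (L := k) Finset.univ
      (fun i => e i ^ (![d₁, d₂, M, M] : Fin 4 → ℕ) i) (aeval e Q) fun P => ?_
    have h1 : ∀ i : Fin 4, max 0 (-P.ord (e i ^ (![d₁, d₂, M, M] : Fin 4 → ℕ) i)) =
        ((![d₁, d₂, M, M] : Fin 4 → ℕ) i : ℤ) * max 0 (-P.ord (e i)) := by
      intro i
      rw [P.ord_pow, mul_max_of_nonneg _ _ (Int.natCast_nonneg _), mul_zero, mul_neg]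
    rw [Finset.sum_congr rfl fun i _ => h1 i, Fin.sum_univ_four]
    have hP := ge_aeval e d₁ d₂ M Q hQ P
    have h2 : (0 : ℤ) ≤ d₁ * max 0 (-P.ord (e 0)) + d₂ * max 0 (-P.ord (e 1)) +
      M * (max 0 (-P.ord (e 2)) + max 0 (-P.ord (e 3))) := by positivity
    have h3 : max 0 (-P.ord (aeval e Q)) ≤ d₁ * max 0 (-P.ord (e 0)) +
        d₂ * max 0 (-P.ord (e 1)) + M * (max 0 (-P.ord (e 2)) + max 0 (-P.ord (e 3))) := by
      by_cases h0 : aeval e Q = 0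
      · rw [h0, P.ord_zero, neg_zero, max_self]
        exact h2
      · rw [P.ge_iff h0] at hP
        refine max_le h2 ?_
        linarith
    refine h3.trans (le_of_eq ?_)
    simp only [Matrix.cons_val_zero, Matrix.cons_val_one, Matrix.cons_val_two,
      Matrix.cons_val_three, Matrix.head_cons, Matrix.tail_cons]
    ring
  refine hz.trans ?_
  rw [Fin.sum_univ_four]
  have b : ∀ i : Fin 4, ht k (e i ^ (![d₁, d₂, M, M] : Fin 4 → ℕ) i) ≤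
      (![d₁, d₂, M, M] : Fin 4 → ℕ) i * ht k (e i) := fun i => ht_pow_le _ _
  have b0 : ht k (e 0 ^ (![d₁, d₂, M, M] : Fin 4 → ℕ) 0) ≤ d₁ * ht k (e 0) := b 0
  have b1 : ht k (e 1 ^ (![d₁, d₂, M, M] : Fin 4 → ℕ) 1) ≤ d₂ * ht k (e 1) := b 1
  have b2 : ht k (e 2 ^ (![d₁, d₂, M, M] : Fin 4 → ℕ) 2) ≤ M * ht k (e 2) := b 2
  have b3 : ht k (e 3 ^ (![d₁, d₂, M, M] : Fin 4 → ℕ) 3) ≤ M * ht k (e 3) := b 3
  rw [mul_add]
  omega

end Pool.Agent.PPZ.H47
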